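import Pool.Agent.U285.EG.A8
import Pool.Agent.U285.EG.G2
import Pool.Agent.U285.EG.G3

/-!
# MP_98cfca_co, Q2: no closed form for the Eulerian (connected even) graphs

Definitions (file `Pool/Agent/U285/EG/G1.lean`):
* `IsEulerian G`: every vertex of `G : SimpleGraph (Fin p)` has even degree and `G` is connected;
* `u p q`: the number of isomorphism classes of Eulerian graphs on `Fin p` with `q` edges;
* `U p x = ∑_{q ≤ p.choose 2} u p q * x ^ q`;
* `V α x = ∑_G x ^ |E(G)|`, over the Eulerian graphs `G` on `Fin p` with `α(G) = G`.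

The functions `V α` are the summands of Burnside's formula `p! U_p(x) = ∑_α V_α(x)` (part 1), the
analogue for `U_p` of the functions `W_j` of Q1.  Parts 3 and 4: neither `U p` nor any nonzero
`V α` is, on `(0, 1)`, a real linear combination of `B` products over `k ∈ K` of integer powers of
`1 + x ^ k` and `1 - x ^ k`, as soon as `B (B - 1) ∑_{k ∈ K, k ≤ e} k < e`, where `e = p` for `U p`
and where `e` is the least number of edges of an Eulerian graph fixed by `α` for `V α`; it is always
at least `p`, and it is `p` for `α = 1` (part 2).  The elements of `K` greater than `e` are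
arbitrary.  For `K = {1}`, the natural choice at the identity type, the condition is
`B (B - 1) < p`.

Proof: `U p` and `V α` vanish at `x = 0` to the order `e`.  Modulo `x ^ (e + 1)` the factors with
`k > e` can be left out, and a nonzero combination of `B` products with `k ∈ K`, `k ≤ e` vanishes at
`0` to order at most `B (B - 1) ∑_{k ∈ K, k ≤ e} k` (a Wronskian argument for the operator
`x d/dx`).
-/

namespace Pool.Agent.Results.MP_98cfca_co.NoClosedFormConnected

open Pool.Agent.U285.EG

theorem result (p : ℕ) (hp3 : 3 ≤ p) :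
    (∀ x : ℝ, (p.factorial : ℝ) * U p x = ∑ α : Equiv.Perm (Fin p), V α x) ∧
    IsLeast {n | ∃ G : SimpleGraph (Fin p), IsEulerian G ∧ G.edgeSet.ncard = n} p ∧
    ∀ (B : ℕ) (K : Finset ℕ), (∀ k ∈ K, 1 ≤ k) →
      ∀ (c : Fin B → ℝ) (a b : Fin B → ℕ → ℤ),
        (B * (B - 1) * ∑ k ∈ K.filter (· ≤ p), k < p →
          ¬ ∀ x ∈ Set.Ioo (0 : ℝ) 1, U p x =
            ∑ t, c t * ∏ k ∈ K, (1 + x ^ k) ^ a t k * (1 - x ^ k) ^ b t k) ∧
        ∀ (α : Equiv.Perm (Fin p)) (e : ℕ),
          IsLeast {n | ∃ G : SimpleGraph (Fin p), IsEulerian G ∧ G.map α = G ∧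
            G.edgeSet.ncard = n} e →
          B * (B - 1) * ∑ k ∈ K.filter (· ≤ e), k < e →
          ¬ ∀ x ∈ Set.Ioo (0 : ℝ) 1, V α x =
            ∑ t, c t * ∏ k ∈ K, (1 + x ^ k) ^ a t k * (1 - x ^ k) ^ b t k := by
  refine ⟨burnside p, isLeast_edges hp3, fun B K hK c a b =>
    ⟨fun hp h => ?_, fun α e he hp h => ?_⟩⟩
  · refine poly_main3 B p K hK hp (Upoly p) (dvd_Upoly (by omega)) (coeff_Upoly hp3) c a b ?_
    intro x hx
    rw [eval_Upoly]
    exact h x hx
  · refine poly_main3 B e K hK hp (Vpoly α) (dvd_Vpoly_least α he) (coeff_Vpoly_least α he)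
      c a b ?_
    intro x hx
    rw [eval_Vpoly]
    exact h x hx

end Pool.Agent.Results.MP_98cfca_co.NoClosedFormConnected
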