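import Pool.Agent.U285.EG.B8
import Pool.Agent.H667R4.A5

/-!
# MP_98cfca_co, Q1: the number of terms at the identity type grows like a power of `p`

`W α x` (file `Pool/Agent/H667R4/A5.lean`) is the sum of `x ^ |E(G)|` over all even graphs `G` on
`Fin p` with `α(G) = G`.  For `α = 1` (cycle type `(p, 0, 0, …)`) the function `W α` is not, on
`(0, 1)`, a real linear combination of `B` products over `k ∈ K` of integer powers of `1 + x ^ k`
and `1 - x ^ k` as soon as `N + 2 B < p`, where, with `K₁ = K ∪ {1}`, the number `N` is the smaller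
one of `(B (B + 1) + 1) ^ |K₁|` and `B (B + 1) (∑ k ∈ K₁, k) + 1`.

So at least `c p ^ (1 / (2 |K₁|))` terms are needed, whatever the elements of `K` are, and at least
`c (p / ∑ k ∈ K₁, k) ^ (1 / 2)` terms, whatever the number of elements of `K` is.

Proof.  `W 1 x = 2 ^ (-p) ∑ i, C(p, i) (1 + x) ^ (D - i (p - i)) (1 - x) ^ (i (p - i))`.  Let `T_1,
…, T_B` be the products, after a choice of linearly independent ones.  The Wronskian of
`T_1, …, T_B, U` for the operator `x d/dx` kills every combination of the `T_t`; for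
`U = (1 + x) ^ (D - s) (1 - x) ^ s` it is, up to a common factor, `U` times a polynomial whose
exponents are sums `∑ k ∈ K₁, g k * k` with `g k ≤ B (B + 1)`, so it vanishes at `1` to an order
`< N`, if it is not zero.  It is not zero for one of the `B + 1` smallest orders `s = j (p - j)`,
and the next order is by at least `p - 2 j - 1 ≥ N` larger.
-/

namespace Pool.Agent.Results.MP_98cfca_co.PolynomialTermBound

open Polynomial H667R4 Pool.Agent.U285.EG

theorem result (B p : ℕ) (K : Finset ℕ) (hK : ∀ k ∈ K, 1 ≤ k)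
    (hp : min ((B * (B + 1) + 1) ^ (insert 1 K).card)
      (B * (B + 1) * ∑ k ∈ insert 1 K, k + 1) + 2 * B < p)
    (c : Fin B → ℝ) (a b : Fin B → ℕ → ℤ) :
    ¬ ∀ x ∈ Set.Ioo (0 : ℝ) 1, W (1 : Equiv.Perm (Fin p)) x =
      ∑ t, c t * ∏ k ∈ K, (1 + x ^ k) ^ a t k * (1 - x ^ k) ^ b t k := by
  intro h
  set n : ℕ := ∑ t, ∑ k ∈ K, ((a t k).natAbs + (b t k).natAbs) with hn
  have hbound : ∀ t, ∀ k ∈ K, (a t k).natAbs + (b t k).natAbs ≤ n := by
    intro t k hk
    rw [hn]
    refine le_trans ?_ (Finset.single_le_sum (f := fun t => ∑ k ∈ K,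
      ((a t k).natAbs + (b t k).natAbs)) (fun _ _ => Nat.zero_le _) (Finset.mem_univ t))
    exact Finset.single_le_sum (f := fun k => (a t k).natAbs + (b t k).natAbs)
      (fun _ _ => Nat.zero_le _) hk
  refine no_identity2 (B := B) (p := p) (D := (pairs p).card) (n := n) hK rfl hp c
    (fun t k => ((n : ℤ) + a t k).toNat) (fun t k => ((n : ℤ) + b t k).toNat) ?_
  apply Polynomial.eq_of_infinite_eval_eq
  refine Set.Infinite.mono ?_ (Set.Ioo_infinite (show (0 : ℝ) < 1 by norm_num))
  intro x hx
  have hx' := h x hx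
  rw [Set.mem_ofPred_eq, eval_finsetSum, eval_finsetSum]
  have h1 : ∀ i ∈ Finset.range (p + 1),
      (C ((1 / 2 : ℝ) ^ p * (p.choose i : ℝ)) * (prodT K (fun _ => n) (fun _ => n) *
        ((1 + X) ^ ((pairs p).card - i * (p - i)) * (1 - X) ^ (i * (p - i))))).eval x =
      (prodT K (fun _ => n) (fun _ => n)).eval x * (((1 / 2 : ℝ) ^ p * (p.choose i : ℝ)) *
        ((1 + x) ^ ((pairs p).card - i * (p - i)) * (1 - x) ^ (i * (p - i)))) := by
    intro i _
    simp only [eval_mul, eval_C, eval_pow, eval_add, eval_sub, eval_one, eval_X]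
    ring
  rw [Finset.sum_congr rfl h1, ← Finset.mul_sum, ← W_one_formula, hx', Finset.mul_sum]
  apply Finset.sum_congr rfl
  intro t _
  rw [eval_mul, eval_C, mul_left_comm]
  congr 1
  rw [prodT, prodT, eval_prod, eval_prod, ← Finset.prod_mul_distrib]
  apply Finset.prod_congr rfl
  intro k hk
  have hk1 := hK k hk
  have hxk0 : 0 < x ^ k := pow_pos hx.1 k
  have hxk1 : x ^ k < 1 := pow_lt_one₀ hx.1.le hx.2 (by omega)
  have hb := hbound t k hk
  have e1 := zpow_shift (y := 1 + x ^ k) (by positivity) (n := n) (a := a t k) (by omega)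
  have e2 := zpow_shift (y := 1 - x ^ k) (by linarith) (n := n) (a := b t k) (by omega)
  simp only [eval_mul, eval_pow, eval_add, eval_sub, eval_one, eval_X]
  rw [← e1, ← e2]
  ring

end Pool.Agent.Results.MP_98cfca_co.PolynomialTermBound
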